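import Pool.Agent.H750Z.RegMain

set_option autoImplicit false

namespace Pool.Agent.Results.MP_9ec07c_ag.PeriodicReg

open Pool.Agent.H750Z Filter

universe u

/-- For every `c ≥ 1`, for OI over every field `K` and for FI over every field of positive
characteristic, there is a finitely generated graded module `M` over `P` with `reg M_n = 1` when
`q ∣ n + 1` and `reg M_n = 0` otherwise (for a fixed `q ≥ 2` and all `n ≥ 2`); the regularity agrees
with no linear function for large `n`. -/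
theorem result (K : Type u) [Field K] (c : ℕ) (hc : 1 ≤ c)
    (Mor : ∀ m n : ℕ, (Fin m → Fin n) → Prop) (hMor : Mor = OI ∨ (Mor = FI ∧ ringChar K ≠ 0)) :
    ∃ M : GrPMod Mor K c, M.FG ∧
      (∃ q : ℕ, 2 ≤ q ∧ ∀ n : ℕ, 2 ≤ n → M.HasReg n (if q ∣ n + 1 then 1 else 0)) ∧
      ¬ ∃ a b : ℤ, ∀ᶠ n : ℕ in atTop, M.HasReg n (a * n + b) := by
  obtain ⟨M, h1, q, hq, h2⟩ := RegMain.main (K := K) hc Mor hMor
  exact ⟨M, h1, ⟨q, hq, h2⟩, RegMain.nonlinear M q hq h2⟩

end Pool.Agent.Results.MP_9ec07c_ag.PeriodicReg
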